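import Mathlib

/-!
# Non-negativity of the Taylor coefficients of `exp (-x / (r + 1)) * B_r(x)`

`B_r(x) = exp x - ∑_{k < r} x ^ k / k!`.
-/

open Finset PowerSeries

namespace Pool.Agent.Results.MP_cd30d4_co.AllCoefficientsNonneg

/-- The power series of `B_r(x) = exp x - ∑_{k < r} x ^ k / k!`. -/
noncomputable def B (r : ℕ) : PowerSeries ℝ :=
  PowerSeries.exp ℝ - ∑ k ∈ Finset.range r, PowerSeries.C (1 / (k.factorial : ℝ)) * PowerSeries.X ^ k

/-- The power series of `G_r(x) = exp (-x / (r + 1)) * B_r(x)`. -/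
noncomputable def G (r : ℕ) : PowerSeries ℝ :=
  PowerSeries.rescale (-(1 / ((r : ℝ) + 1))) (PowerSeries.exp ℝ) * B r

lemma coeff_B (r n : ℕ) :
    PowerSeries.coeff n (B r) = if r ≤ n then 1 / (n.factorial : ℝ) else 0 := by
  unfold B
  rw [map_sub, map_sum, PowerSeries.coeff_exp]
  simp only [PowerSeries.coeff_C_mul, PowerSeries.coeff_X_pow]
  by_cases h : r ≤ n
  · rw [if_pos h, Finset.sum_eq_zero]
    · simp
    · intro k hk
      have : n ≠ k := by
        have := Finset.mem_range.1 hk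
        omega
      simp [this]
  · rw [if_neg h, Finset.sum_eq_single n]
    · simp
    · intro b _ hb
      simp [hb.symm]
    · intro hn
      exact absurd (Finset.mem_range.2 (by omega)) hn

/-- `(s + 1 + m)`-type normalised coefficients satisfy the first order recurrence. -/
lemma deriv_E (c : ℝ) :
    PowerSeries.derivative ℝ (PowerSeries.rescale c (PowerSeries.exp ℝ)) =
      PowerSeries.C c * PowerSeries.rescale c (PowerSeries.exp ℝ) := by
  ext n
  rw [PowerSeries.coeff_derivative, PowerSeries.coeff_C_mul, PowerSeries.coeff_rescale,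
    PowerSeries.coeff_rescale, PowerSeries.coeff_exp, PowerSeries.coeff_exp]
  simp only [Nat.factorial_succ, pow_succ]
  push_cast
  have h1 : (n.factorial : ℝ) ≠ 0 := by positivity
  have h2 : ((n : ℝ) + 1) ≠ 0 := by positivity
  simp
  field_simp

lemma deriv_B (s : ℕ) :
    PowerSeries.derivative ℝ (B (s + 1)) =
      B (s + 1) + PowerSeries.C (1 / (s.factorial : ℝ)) * PowerSeries.X ^ s := by
  ext n
  rw [PowerSeries.coeff_derivative, map_add, coeff_B, coeff_B, PowerSeries.coeff_C_mul,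
    PowerSeries.coeff_X_pow]
  have h1 : (n.factorial : ℝ) ≠ 0 := by positivity
  have h2 : ((n : ℝ) + 1) ≠ 0 := by positivity
  rcases lt_trichotomy n s with h | h | h
  · rw [if_neg (by omega), if_neg (by omega), if_neg (by omega)]
    simp
  · subst h
    rw [if_pos (by omega), if_neg (by omega), if_pos rfl, Nat.factorial_succ]
    push_cast
    field_simp
    ring
  · rw [if_pos (by omega), if_pos (by omega), if_neg (by omega), Nat.factorial_succ]
    push_cast
    field_simp
    ring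

/-- The differential equation `G' = (1 - a) G + e^{-a x} x^{r-1} / (r-1)!`. -/
lemma deriv_G (s : ℕ) :
    PowerSeries.derivative ℝ (G (s + 1)) =
      PowerSeries.C (1 - 1 / ((s : ℝ) + 2)) * G (s + 1) +
        PowerSeries.C (1 / (s.factorial : ℝ)) *
          (PowerSeries.rescale (-(1 / ((s : ℝ) + 2))) (PowerSeries.exp ℝ) * PowerSeries.X ^ s) := by
  have e : (((s + 1 : ℕ) : ℝ) + 1) = (s : ℝ) + 2 := by push_cast; ring
  unfold G
  rw [e, Derivation.leibniz, deriv_E, deriv_B]
  simp only [smul_eq_mul, map_sub, map_neg, map_one]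
  ring

lemma rec_G (s m : ℕ) :
    ((s + m : ℕ) + 1 : ℝ) * PowerSeries.coeff (s + m + 1) (G (s + 1)) =
      (1 - 1 / ((s : ℝ) + 2)) * PowerSeries.coeff (s + m) (G (s + 1)) +
        1 / (s.factorial : ℝ) * ((-(1 / ((s : ℝ) + 2))) ^ m / (m.factorial : ℝ)) := by
  have h := congrArg (PowerSeries.coeff (s + m)) (deriv_G s)
  rw [PowerSeries.coeff_derivative, map_add, PowerSeries.coeff_C_mul, PowerSeries.coeff_C_mul,
    show s + m = m + s by ring, PowerSeries.coeff_mul_X_pow, PowerSeries.coeff_rescale,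
    PowerSeries.coeff_exp] at h
  rw [show s + m = m + s by ring, mul_comm, h]
  simp [div_eq_mul_inv]

lemma coeff_low (s : ℕ) : PowerSeries.coeff s (G (s + 1)) = 0 := by
  unfold G
  rw [PowerSeries.coeff_mul]
  apply Finset.sum_eq_zero
  rintro ⟨i, j⟩ hij
  rw [Finset.HasAntidiagonal.mem_antidiagonal] at hij
  rw [coeff_B, if_neg (by simp at hij ⊢; omega), mul_zero]

/-- Two steps of the recurrence at once. -/
lemma two_step (s : ℕ) : ∀ j : ℕ,
    0 ≤ PowerSeries.coeff (s + 2 * j) (G (s + 1)) ∧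
    0 ≤ PowerSeries.coeff (s + 2 * j + 1) (G (s + 1)) := by
  set a : ℝ := 1 / ((s : ℝ) + 2) with ha
  have hs : (0 : ℝ) ≤ s := Nat.cast_nonneg s
  have ha0 : 0 < a := by positivity
  have ha1 : 0 ≤ 1 - a := by
    rw [ha, sub_nonneg, div_le_one (by positivity)]
    linarith
  have key : ∀ j : ℕ, 0 ≤ PowerSeries.coeff (s + 2 * j) (G (s + 1)) →
      0 ≤ PowerSeries.coeff (s + 2 * j + 1) (G (s + 1)) ∧
      0 ≤ PowerSeries.coeff (s + 2 * (j + 1)) (G (s + 1)) := by
    intro j hj
    have h1 := rec_G s (2 * j)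
    have h2 := rec_G s (2 * j + 1)
    rw [← ha] at h1 h2
    rw [Even.neg_pow (even_two_mul j)] at h1
    rw [Odd.neg_pow (odd_two_mul_add_one j)] at h2
    set T : ℝ := 1 / (s.factorial : ℝ) * (a ^ (2 * j) / ((2 * j).factorial : ℝ)) with hT
    have hT0 : 0 < T := by positivity
    have h3 : 1 / (s.factorial : ℝ) * (-a ^ (2 * j + 1) / ((2 * j + 1).factorial : ℝ)) =
        -(a / (2 * j + 1) * T) := by
      rw [hT, Nat.factorial_succ, pow_succ]
      push_cast
      field_simp
    rw [h3] at h2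
    have hc1 : 0 ≤ PowerSeries.coeff (s + 2 * j + 1) (G (s + 1)) := by
      have hpos : (0 : ℝ) < ((s + 2 * j : ℕ) + 1 : ℝ) := by positivity
      have : 0 ≤ ((s + 2 * j : ℕ) + 1 : ℝ) * PowerSeries.coeff (s + 2 * j + 1) (G (s + 1)) := by
        rw [h1]
        have := mul_nonneg ha1 hj
        linarith
      exact nonneg_of_mul_nonneg_right this hpos
    refine ⟨hc1, ?_⟩
    have hpos : (0 : ℝ) < ((s + (2 * j + 1) : ℕ) + 1 : ℝ) := by positivity
    have e1 : s + (2 * j + 1) + 1 = s + 2 * (j + 1) := by ring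
    have e2 : s + (2 * j + 1) = s + 2 * j + 1 := by ring
    rw [e1] at h2
    have hn : (0 : ℝ) < ((s + 2 * j : ℕ) + 1 : ℝ) := by positivity
    -- `(n+1) * ((n+2) c_{n+2})`
    have h4 : ((s + 2 * j : ℕ) + 1 : ℝ) *
        ((((s + (2 * j + 1) : ℕ) : ℝ) + 1) * PowerSeries.coeff (s + 2 * (j + 1)) (G (s + 1))) =
        (1 - a) ^ 2 * PowerSeries.coeff (s + 2 * j) (G (s + 1)) +
          ((1 - a) - ((s + 2 * j : ℕ) + 1 : ℝ) * (a / (2 * j + 1))) * T := by
      rw [h2, e2]
      have : ((s + 2 * j : ℕ) + 1 : ℝ) * ((1 - a) * PowerSeries.coeff (s + 2 * j + 1) (G (s + 1)) +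
          -(a / (2 * j + 1) * T)) =
          (1 - a) * (((s + 2 * j : ℕ) + 1 : ℝ) * PowerSeries.coeff (s + 2 * j + 1) (G (s + 1))) -
          ((s + 2 * j : ℕ) + 1 : ℝ) * (a / (2 * j + 1)) * T := by ring
      rw [this, h1]
      ring
    have h5 : 0 ≤ (1 - a) - ((s + 2 * j : ℕ) + 1 : ℝ) * (a / (2 * j + 1)) := by
      have hj0 : (0 : ℝ) ≤ j := Nat.cast_nonneg j
      have : (1 - a) - ((s + 2 * j : ℕ) + 1 : ℝ) * (a / (2 * j + 1)) =
          (2 * j * s) / ((s + 2) * (2 * j + 1)) := by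
        rw [ha]
        push_cast
        field_simp
        ring
      rw [this]
      positivity
    have h6 : 0 ≤ ((s + 2 * j : ℕ) + 1 : ℝ) *
        ((((s + (2 * j + 1) : ℕ) : ℝ) + 1) *
          PowerSeries.coeff (s + 2 * (j + 1)) (G (s + 1))) := by
      rw [h4]
      have := mul_nonneg h5 hT0.le
      have := mul_nonneg (sq_nonneg (1 - a)) hj
      linarith
    exact nonneg_of_mul_nonneg_right (nonneg_of_mul_nonneg_right h6 hn) hpos
  intro j
  induction j with
  | zero =>
    have h0 : 0 ≤ PowerSeries.coeff (s + 2 * 0) (G (s + 1)) := by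
      simp [coeff_low]
    exact ⟨h0, (key 0 h0).1⟩
  | succ j ih => exact ⟨(key j ih.1).2, (key (j + 1) (key j ih.1).2).1⟩

/-- **Every Taylor coefficient of `exp (-x / (r + 1)) * B_r(x)` is non-negative, for every
integer `r ≥ 1`.** -/
theorem result : ∀ r : ℕ, 1 ≤ r → ∀ n : ℕ, 0 ≤ PowerSeries.coeff n (G r) := by
  intro r hr n
  obtain ⟨s, rfl⟩ : ∃ s, r = s + 1 := ⟨r - 1, by omega⟩
  rcases lt_or_ge n s with h | h
  · have : PowerSeries.coeff n (G (s + 1)) = 0 := by
      unfold G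
      rw [PowerSeries.coeff_mul]
      apply Finset.sum_eq_zero
      rintro ⟨i, j⟩ hij
      rw [Finset.HasAntidiagonal.mem_antidiagonal] at hij
      rw [coeff_B, if_neg (by simp at hij ⊢; omega), mul_zero]
    rw [this]
  · obtain ⟨m, rfl⟩ := Nat.exists_eq_add_of_le h
    rcases Nat.even_or_odd' m with ⟨j, rfl | rfl⟩
    · exact (two_step s j).1
    · exact (two_step s j).2

end Pool.Agent.Results.MP_cd30d4_co.AllCoefficientsNonneg
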